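import Pool.Agent.Lib.HLK.Blue

/-! Project idx: the index of the twisted Dolbeault operators. Blueprint. -/

open scoped Classical Topology ContDiff ComplexOrder Matrix ENNReal
open Set MeasureTheory Complex Metric Filter UniformSpace

set_option linter.unusedVariables false

noncomputable section

namespace Pool.Agent.Lib.IDX

open Pool.Agent.Lib.SV (E)
open Pool.Agent.Lib.HS32 Pool.Agent.Lib.KP Pool.Agent.Lib.HLK

/-! ### The abstract part -/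

section abs

variable {V : Type} [SeminormedAddCommGroup V] [InnerProductSpace ℂ V]

/-- The weak kernel of parity `s`. -/
def wk (D e : V →ₗ[ℂ] V) (s : ℝ) : Submodule ℂ (Completion V) where
  carrier := {u | ∀ w : V, inner ℂ u ((D w : V) : Completion V) = 0 ∧
    inner ℂ u ((e w : V) : Completion V) = s * inner ℂ u (w : Completion V)}
  add_mem' {u v} hu hv w := by
    simp only [inner_add_left, (hu w).1, (hv w).1, (hu w).2, (hv w).2, add_zero, mul_add, and_self]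
  zero_mem' w := by simp
  smul_mem' c u hu w := by
    simp only [inner_smul_left, (hu w).1, (hu w).2, mul_zero, true_and]
    ring

/-- A skew odd operator with compact resolvent. -/
structure Lev (D e : V →ₗ[ℂ] V) : Prop where
  sk : ∀ a b, inner ℂ (D a) b = -inner ℂ a (D b)
  ws : ∀ u w : Completion V, (∀ s : V, inner ℂ u ((D s : V) : Completion V) =
    inner ℂ w (s : Completion V)) → ∀ η : ℝ, 0 < η → ∃ s : V, ‖u - s‖ < η ∧ ‖w + (D s : V)‖ < η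
  rel : TotallyBounded ((fun s : V => (s : Completion V)) '' {s | ‖s‖ ≤ 1 ∧ ‖D s‖ ≤ 1})
  es : ∀ a b, inner ℂ (e a) b = inner ℂ a (e b)
  ee : ∀ a, e (e a) = a
  od : ∀ a, ‖D (e a) + e (D a)‖ = 0

end abs

/-- Commuting multiplications between consecutive levels, without common zero. -/
structure Kz {V : ℕ → Type} [∀ b, SeminormedAddCommGroup (V b)] [∀ b, InnerProductSpace ℂ (V b)]
    (D e : ∀ b, V b →ₗ[ℂ] V b) {N : ℕ} (s : ∀ b, Fin N → V b →ₗ[ℂ] V (b + 1))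
    (t : ∀ b, Fin N → V (b + 1) →ₗ[ℂ] V b) : Prop where
  lev : ∀ b, Lev (D b) (e b)
  ad : ∀ b j x y, inner ℂ (s b j x) y = inner ℂ x (t b j y)
  bd : ∀ b j, ∃ C : ℝ, ∀ x, ‖s b j x‖ ≤ C * ‖x‖
  cm : ∀ b j, ∃ C : ℝ, ∀ x, ‖D (b + 1) (s b j x) - s b j (D b x)‖ ≤ C * ‖x‖
  ev : ∀ b j x, e (b + 1) (s b j x) = s b j (e b x)
  ss : ∀ b i j x, s (b + 1) i (s b j x) = s (b + 1) j (s b i x)
  ts : ∀ b i j x, s b i (t b j x) = t (b + 1) j (s (b + 1) i x)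
  one : ∀ b x, ‖∑ j, t b j (s b j x) - x‖ = 0

/-- The Koszul argument. -/
def St_PRE : Prop := ∀ (V : ℕ → Type) [∀ b, SeminormedAddCommGroup (V b)]
  [∀ b, InnerProductSpace ℂ (V b)] (D e : ∀ b, V b →ₗ[ℂ] V b) (N : ℕ)
  (s : ∀ b, Fin N → V b →ₗ[ℂ] V (b + 1)) (t : ∀ b, Fin N → V (b + 1) →ₗ[ℂ] V b), Kz D e s t →
  (∀ b r, FiniteDimensional ℂ (wk (D b) (e b) r)) ∧
  (Module.finrank ℂ (wk (D 0) (e 0) 1) ≠ Module.finrank ℂ (wk (D 0) (e 0) (-1)) →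
    {b | ∀ η : ℝ, 0 < η → ∃ w : V b, ‖w‖ = 1 ∧ ‖D b w‖ ≤ η}.Infinite)

/-! ### The objects -/

section defs

variable {n : ℕ} {M : Mf n}

/-- The parity. -/
def par (W : M.Fam (Fs n → ℂ)) : M.Fam (Fs n → ℂ) := fun e z A => (-1) ^ A.card * W e z A

/-- Multiplication by a section. -/
def ml (s : M.Fam ℂ) (W : M.Fam (Fs n → ℂ)) : M.Fam (Fs n → ℂ) := fun e z => s e z • W e z

/-- The dual section. -/
def cj (ψ : M.Fam ℝ) (s : M.Fam ℂ) : M.Fam ℂ :=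
  fun e z => star (s e z) * ((Real.exp (-ψ e z) : ℝ) : ℂ)

/-- The Hermitian bundle `L'` is the sum of `L` and `A`. -/
structure Nx (L : M.Co) (φ : M.Fam ℝ) (A : M.Co) (ψ : M.Fam ℝ) (L' : M.Co) (φ' : M.Fam ℝ) :
    Prop where
  wl : M.WtC L φ
  wa : M.WtC A ψ
  wn : M.WtC L' φ'
  c : M.Ov fun e e' x => L'.c e e' x = L.c e e' x * A.c e e' x
  w : M.All fun e z => φ' e z = φ e z + ψ e z

/-- The canonical bundle with the metric given by `H`. -/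
structure Can (H : M.Fam (Mat n)) (L : M.Co) (φ : M.Fam ℝ) : Prop where
  wl : M.WtC L φ
  c : M.Ov fun e e' x => L.c e e' x = (M.J e e' x).det
  w : M.All fun e z => φ e z = Real.log (H e z).det.re

/-- The holomorphic sections whose degrees satisfy `p`; they vanish outside the charts. -/
def hl (b : Bun M (Fs n)) (p : ℕ → Prop) : Submodule ℂ (M.Fam (Fs n → ℂ)) where
  carrier := {W | b.Sec W ∧ Hol W ∧ ∀ e z A, W e z A ≠ 0 → e ∈ M.C ∧ z ∈ e.target ∧ p A.card}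
  add_mem' {U W} hU hW := ⟨b.secs.add_mem hU.1 hW.1, fun e he z hz i =>
    ((hU.2.1 e he z hz i).and (hW.2.1 e he z hz i)).mono fun w h => h.1.add h.2, fun e z A h => by
      by_cases c : U e z A = 0
      · exact hW.2.2 e z A fun d => h (by simp [c, d])
      · exact hU.2.2 e z A c⟩
  zero_mem' := ⟨b.secs.zero_mem, fun e he z hz i => Eventually.of_forall fun w =>
    differentiableAt_const _, fun e z A h => (h rfl).elim⟩
  smul_mem' c W hW := ⟨b.secs.smul_mem c hW.1, fun e he z hz i =>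
    (hW.2.1 e he z hz i).mono fun w h => h.const_mul c, fun e z A h =>
      hW.2.2 e z A fun d => h (by simp [d])⟩

/-- The alternating sum of the dimensions. -/
def chi (b : Bun M (Fs n)) : ℤ :=
  ∑ q ∈ Finset.range (n + 1), (-1) ^ q * (Module.finrank ℂ (hl b (· = q)) : ℤ)

/-- The geometry attached to a weight. -/
def geo {H : M.Fam (Mat n)} (L : M.Co) (φ : M.Fam ℝ) (hH : M.Met H) (hb : (lam H L φ).Ok) :
    Geo M (Fs n) := ⟨H, lam H L φ, hH, hb⟩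

end defs

/-! ### The rows -/

/-- Smooth sections without common zero. -/
def St_SIG : Prop := ∀ (n : ℕ) (M : Mf n) [M.Cpt] (A : M.Co) (ψ : M.Fam ℝ), M.WtC A ψ →
  ∃ (N : ℕ) (s : Fin N → M.Fam ℂ), (∀ j, M.SecC A (s j)) ∧
    M.All fun e z => ∑ j, cj ψ (s j) e z * s j e z = 1

/-- The parity. -/
def St_PAR : Prop := ∀ (n : ℕ) (M : Mf n) (H : M.Fam (Mat n)) (L : M.Co) (φ : M.Fam ℝ)
  (W : M.Fam (Fs n → ℂ)), par (par W) = W ∧
  (∀ W', (lam H L φ).pp (par W) W' = (lam H L φ).pp W (par W')) ∧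
  ((lam H L φ).Sec W → (lam H L φ).Sec (par W) ∧
    M.All fun e z => (oD H φ).ap (par W) e z = -par ((oD H φ).ap W) e z)

/-- Multiplication by a section and its adjoint. -/
def St_MUL : Prop := ∀ (n : ℕ) (M : Mf n) [M.Cpt] (H : M.Fam (Mat n)) (L A L' : M.Co)
  (φ ψ φ' : M.Fam ℝ) (s : M.Fam ℂ), M.Met H → Nx L φ A ψ L' φ' → M.SecC A s →
  (∀ W, (lam H L φ).Sec W → (lam H L' φ').Sec (ml s W)) ∧
  (∀ W, (lam H L' φ').Sec W → (lam H L φ).Sec (ml (cj ψ s) W)) ∧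
  (∀ W W', (lam H L' φ').pp (ml s W) W' = (lam H L φ).pp W (ml (cj ψ s) W')) ∧
  ∃ C : ℝ, 0 ≤ C ∧ ∀ W x, (lam H L' φ').pn (ml s W) x ≤ C * (lam H L φ).pn W x

/-- The commutator has order zero. -/
def St_COM : Prop := ∀ (n : ℕ) (M : Mf n) [M.Cpt] (H : M.Fam (Mat n)) (L A L' : M.Co)
  (φ ψ φ' : M.Fam ℝ) (s : M.Fam ℂ), M.Kae H → Nx L φ A ψ L' φ' → M.SecC A s →
  ∃ C : ℝ, 0 ≤ C ∧ ∀ W, (lam H L φ).Sec W → ∀ x,
    (lam H L' φ').pn ((oD H φ').ap (ml s W) - ml s ((oD H φ).ap W)) x ≤ C * (lam H L φ).pn W x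

/-- One level. -/
def St_LEV : Prop := ∀ (n : ℕ) (M : Mf n) [M.Cpt] (H : M.Fam (Mat n)) (L : M.Co) (φ : M.Fam ℝ)
  (hH : M.Met H) (hb : (lam H L φ).Ok) (hD : (oD H φ).Skew (lam H L φ) H), M.Kae H → M.WtC L φ →
  ∃ e : Pre (geo L φ hH hb) →ₗ[ℂ] Pre (geo L φ hH hb), (∀ w, (e w).val = par w.val) ∧
    Lev (Pre.op (g := geo L φ hH hb) (oD H φ) hD.sec) e

/-- Two consecutive levels. -/
def St_STP : Prop := ∀ (n : ℕ) (M : Mf n) [M.Cpt] (H : M.Fam (Mat n)) (L A L' : M.Co)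
  (φ ψ φ' : M.Fam ℝ) (s : M.Fam ℂ) (hH : M.Met H) (hb : (lam H L φ).Ok) (hb' : (lam H L' φ').Ok)
  (hD : (oD H φ).Skew (lam H L φ) H) (hD' : (oD H φ').Skew (lam H L' φ') H), M.Kae H →
  Nx L φ A ψ L' φ' → M.SecC A s →
  ∃ (m : Pre (geo L φ hH hb) →ₗ[ℂ] Pre (geo L' φ' hH hb'))
    (t : Pre (geo L' φ' hH hb') →ₗ[ℂ] Pre (geo L φ hH hb)) (C : ℝ),
    (∀ x, (m x).val = ml s x.val) ∧ (∀ y, (t y).val = ml (cj ψ s) y.val) ∧
    (∀ x y, inner ℂ (m x) y = inner ℂ x (t y)) ∧ ∀ x, ‖m x‖ ≤ C * ‖x‖ ∧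
      ‖Pre.op (g := geo L' φ' hH hb') (oD H φ') hD'.sec (m x) -
        m (Pre.op (g := geo L φ hH hb) (oD H φ) hD.sec x)‖ ≤ C * ‖x‖

/-- Sections of norm zero. -/
def St_INJ : Prop := ∀ (n : ℕ) (M : Mf n) [M.Cpt] (σ : Type) [Fintype σ] [DecidableEq σ]
  (g : Geo M σ) (w : Pre g), ‖w‖ = 0 ↔ M.All fun e z => w.val e z = 0

/-- The identity without curvature. -/
def St_HA : Prop := ∀ (n : ℕ) (M : Mf n) [M.Cpt] (H : M.Fam (Mat n)) (L : M.Co) (φ : M.Fam ℝ)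
  (W : M.Fam (Fs n → ℂ)), M.Kae H → Can H L φ → (lam H L φ).Sec W →
  (lam H L φ).nr H ((oD H φ).ap W) = ∫ x, gb H (lam H L φ) W x ∂M.mu H ∧
  (Hol W → (lam H L φ).nr H ((oD H φ).ap W) = 0)

/-- Weak solutions are holomorphic. -/
def St_HB : Prop := ∀ (n : ℕ) (M : Mf n) [M.Cpt] (H : M.Fam (Mat n)) (L : M.Co) (φ : M.Fam ℝ)
  (hH : M.Met H) (hb : (lam H L φ).Ok) (hD : (oD H φ).Skew (lam H L φ) H)
  (u : L2 (geo L φ hH hb)), 0 < n → M.Kae H → Can H L φ →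
  (∀ η : ℝ, 0 < η → ∃ s : Pre (geo L φ hH hb), ‖u - s‖ < η ∧
    ‖Pre.op (g := geo L φ hH hb) (oD H φ) hD.sec s‖ < η) →
  ∃ v : Pre (geo L φ hH hb), Hol v.val ∧ (v : L2 (geo L φ hH hb)) = u

/-- The weak kernel at the canonical level. -/
def St_HC : Prop := ∀ (n : ℕ) (M : Mf n) [M.Cpt] (H : M.Fam (Mat n)) (L : M.Co) (φ : M.Fam ℝ)
  (hH : M.Met H) (hb : (lam H L φ).Ok) (hD : (oD H φ).Skew (lam H L φ) H)
  (e : Pre (geo L φ hH hb) →ₗ[ℂ] Pre (geo L φ hH hb)), 0 < n → M.Kae H → Can H L φ →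
  (∀ w, (e w).val = par w.val) → Lev (Pre.op (g := geo L φ hH hb) (oD H φ) hD.sec) e →
  Nonempty (hl (lam H L φ) Even ≃ₗ[ℂ] wk (Pre.op (g := geo L φ hH hb) (oD H φ) hD.sec) e 1) ∧
  Nonempty (hl (lam H L φ) Odd ≃ₗ[ℂ] wk (Pre.op (g := geo L φ hH hb) (oD H φ) hD.sec) e (-1))

/-- Decomposition by the degree. -/
def St_DIM : Prop := ∀ (n : ℕ) (M : Mf n) (H : M.Fam (Mat n)) (L : M.Co) (φ : M.Fam ℝ),
  FiniteDimensional ℂ (hl (lam H L φ) Even) → FiniteDimensional ℂ (hl (lam H L φ) Odd) →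
  (∀ q, FiniteDimensional ℂ (hl (lam H L φ) (· = q))) ∧
  chi (lam H L φ) = (Module.finrank ℂ (hl (lam H L φ) Even) : ℤ) -
    Module.finrank ℂ (hl (lam H L φ) Odd)

/-- The result: almost harmonic sections at infinitely many levels. -/
def St_IDX : Prop := ∀ (n : ℕ) (M : Mf n) [M.Cpt] (H : M.Fam (Mat n)) (L : ℕ → M.Co)
  (φ : ℕ → M.Fam ℝ) (A : M.Co) (ψ : M.Fam ℝ), 0 < n → M.Kae H → Can H (L 0) (φ 0) →
  (∀ b, Nx (L b) (φ b) A ψ (L (b + 1)) (φ (b + 1))) →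
  (∀ q, FiniteDimensional ℂ (hl (lam H (L 0) (φ 0)) (· = q))) ∧
  (chi (lam H (L 0) (φ 0)) ≠ 0 → {b | Ah H (L b) (φ b)}.Infinite)

end Pool.Agent.Lib.IDX
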