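import Pool.Agent.Lib.IDX.Blue

/-! Project idx, row COM: the commutator with a multiplication has order zero. -/

open scoped Classical Topology ContDiff ComplexOrder Matrix
open Set MeasureTheory Complex Filter

noncomputable section

namespace Pool.Agent.Lib.IDX

open Pool.Agent.Lib.SV (E)
open Pool.Agent.Lib.HS32 Pool.Agent.Lib.KP Pool.Agent.Lib.HLK
open Pool.Agent.Lib.KP.T60 (phC)

namespace COM

variable {n : ℕ} {M : Mf n} {H : M.Fam (Mat n)} {L A L' : M.Co} {φ ψ φ' : M.Fam ℝ}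
  {s : M.Fam ℂ} {W : M.Fam (Fs n → ℂ)}

/-- The coefficient of the commutator. -/
def co (H : M.Fam (Mat n)) (φ ψ : M.Fam ℝ) (s : M.Fam ℂ) : M.Fam (Mx (Fs n)) := fun e z =>
  ∑ k, ((dz k (s e) z - s e z * dz k (fun w => (ψ e w : ℂ)) z) • an k +
    dzb k (s e) z • (oD H φ).B k e z)

theorem eq (hH : M.Met H) (h : Nx L φ A ψ L' φ') (hs : M.SecC A s) (hW : (lam H L φ).Sec W) :
    M.All fun e z => ((oD H φ').ap (ml s W) - ml s ((oD H φ).ap W)) e z =
      co H φ ψ s e z *ᵥ W e z := fun e he z hz => by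
  have ds := cd_diff (hs.sm e he z hz)
  have dw := fun i => cd_diff (contDiffAt_pi.1 (hW.sm e he z hz) i)
  have e1 : ∀ k, dzv k (ml s W e) z = dz k (s e) z • W e z + s e z • dzv k (W e) z :=
    fun k => funext fun i => dz_mul ds (dw i)
  have e2 : ∀ k, dzbv k (ml s W e) z = dzb k (s e) z • W e z + s e z • dzbv k (W e) z :=
    fun k => funext fun i => dzb_mul ds (dw i)
  have p : ContDiffAt ℝ ∞ (phC M H φ e) z := (h.wl.sm e he z hz).sub
    ((cd_re (hH.sm e he z hz).det).log (Mf.pd_det_re (hH.pos e he z hz)).ne')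
  have e3 : ∀ k, dz k (fun w => (phC M H φ' e w : ℂ)) z =
      dz k (fun w => (phC M H φ e w : ℂ)) z + dz k (fun w => (ψ e w : ℂ)) z := fun k => by
    rw [← dz_add (cd_diff (cd_ofReal p)) (cd_diff (cd_ofReal (h.wa.sm e he z hz)))]
    refine dz_congr ((h.w.ev he hz).mono fun w hw => ?_)
    simp only [phC, show φ' e w = _ from hw]
    push_cast
    ring
  show (oD H φ').ap (ml s W) e z - s e z • (oD H φ).ap W e z = _
  simp only [Op.ap, e1, e2, co, show ml s W e z = s e z • W e z from rfl]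
  simp only [oD, e3, Matrix.mulVec_add, Matrix.mulVec_smul, Matrix.add_mulVec, Matrix.neg_mulVec,
    Matrix.sum_mulVec, Matrix.smul_mulVec, add_smul, sub_smul, Matrix.sub_mulVec, smul_add,
    Finset.sum_add_distrib, Finset.sum_sub_distrib, Finset.smul_sum, smul_neg, mul_smul, neg_add]
  abel

end COM

theorem bCOM (hLAM : HLK.St_LAM) (hSKW : HLK.St_SKW) (hZER : HLK.St_ZER) (hMUL : St_MUL) :
    St_COM := by
  intro n M _ H L A L' φ ψ φ' s hH h hs
  have m := (hMUL n M H L A L' φ ψ φ' s hH.toMet h hs).1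
  have k := (hSKW n M H L φ hH h.wl).1
  have k' := (hSKW n M H L' φ' hH h.wn).1
  obtain ⟨C, hC, hb⟩ := (hZER n M _ _ (lam H L φ) (lam H L' φ') (COM.co H φ ψ s)
    (hLAM n M H L φ hH.toMet h.wl).1 (hLAM n M H L' φ' hH.toMet h.wn).1 fun e he z hz i j => by
      have ss := hs.sm e he z hz
      simp only [COM.co, Matrix.sum_apply, Matrix.add_apply, Matrix.smul_apply, smul_eq_mul]
      exact ContDiffAt.sum fun l _ => (((cd_dz ss l).sub (ss.mul (cd_dz (cd_ofReal
        (h.wa.sm e he z hz)) l))).mul contDiffAt_const).add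
          ((cd_dzb ss l).mul (((k.sm e he z hz).1 l).2 i j))).2 fun W hW => by
      have q := COM.eq hH.toMet h hs hW
      have t : (lam H L' φ').Sec _ :=
        (lam H L' φ').secs.sub_mem (k'.sec _ (m W hW)) (m _ (k.sec W hW))
      refine ⟨fun e he z hz => (t.sm e he z hz).congr_of_eventuallyEq
        ((q.ev he hz).mono fun w hw => hw.symm), fun e he e' he' x hx hx' => ?_⟩
      beta_reduce
      rw [← q e he _ (e.map_source hx), ← q e' he' _ (e'.map_source hx')]
      exact t.cmp e he e' he' x hx hx'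
  refine ⟨C, hC, fun W hW x => le_of_eq_of_le ?_ (hb W x)⟩
  simp only [Bun.pn, Bun.pp, Mf.ev_congr (COM.eq hH.toMet h hs hW)]

end Pool.Agent.Lib.IDX
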