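import Pool.Agent.Lib.IDX.Blue

/-! Decomposition by the degree. -/

open scoped Classical Topology ContDiff ComplexOrder Matrix
open Set Filter Module

noncomputable section

namespace Pool.Agent.Lib.IDX

open Pool.Agent.Lib.HS32 Pool.Agent.Lib.KP Pool.Agent.Lib.HLK

namespace DIM

variable {n : ℕ} {M : Mf n} {H : M.Fam (Mat n)} {L : M.Co} {φ : M.Fam ℝ} {p q : ℕ → Prop}

/-- The part whose degrees satisfy `p`. -/
def pj (p : ℕ → Prop) (W : M.Fam (Fs n → ℂ)) : M.Fam (Fs n → ℂ) :=
  fun e z A => if p A.card then W e z A else 0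

theorem pj_mem (p : ℕ → Prop) {W : M.Fam (Fs n → ℂ)} (hW : W ∈ hl (lam H L φ) q) :
    pj p W ∈ hl (lam H L φ) fun k => p k ∧ q k := by
  refine ⟨⟨fun e he z hz => contDiffAt_pi.2 fun A => ?_, fun e he e' he' x hx hx' => ?_⟩,
    fun e he z hz A => ?_, fun e z A h => ?_⟩
  · by_cases c : p A.card
    · simpa only [pj, if_pos c] using contDiffAt_pi.1 (hW.1.sm e he z hz) A
    · simpa only [pj, if_neg c] using contDiffAt_const
  · funext A
    have h := congrFun (hW.1.cmp e he e' he' x hx hx') A
    have k : ∀ B : Fs n, ((lam H L φ).T e e' x A B * if p B.card then W e' (e' x) B else 0) =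
        if p A.card then (lam H L φ).T e e' x A B * W e' (e' x) B else 0 := fun B => by
      by_cases c : B.card = A.card
      · rw [c]; split_ifs <;> simp
      · simp [lam, La, c]
    simp only [pj, h, Matrix.mulVec, dotProduct, k]
    split_ifs <;> simp
  · by_cases c : p A.card
    · simpa only [pj, if_pos c] using hW.2.1 e he z hz A
    · simp only [pj, if_neg c]
      exact Eventually.of_forall fun w => differentiableAt_const _
  · by_cases c : p A.card
    · obtain ⟨a, b, d⟩ := hW.2.2 e z A (by simpa only [pj, if_pos c] using h)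
      exact ⟨a, b, c, d⟩
    · exact (h (if_neg c)).elim

theorem mono (b : Bun M (Fs n)) (h : ∀ k ≤ n, p k → q k) : hl b p ≤ hl b q := fun W hW =>
  ⟨hW.1, hW.2.1, fun e z A c => (hW.2.2 e z A c).imp_right (And.imp_right
    (h _ (by simpa using A.card_le_univ)))⟩

theorem bot (b : Bun M (Fs n)) (h : ∀ k, ¬p k) : hl b p = ⊥ :=
  eq_bot_iff.2 fun _ hW => funext fun e => funext fun z => funext fun A =>
    by_contra fun c => h _ (hW.2.2 e z A c).2.2

theorem split (p : ℕ → Prop) [FiniteDimensional ℂ (hl (lam H L φ) q)] :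
    finrank ℂ (hl (lam H L φ) q) = finrank ℂ (hl (lam H L φ) fun k => p k ∧ q k) +
      finrank ℂ (hl (lam H L φ) fun k => ¬p k ∧ q k) := by
  have l1 := mono (lam H L φ) (p := fun k => p k ∧ q k) fun _ _ h => h.2
  have l2 := mono (lam H L φ) (p := fun k => ¬p k ∧ q k) fun _ _ h => h.2
  have := Submodule.finiteDimensional_of_le l1
  have := Submodule.finiteDimensional_of_le l2
  have e1 : hl (lam H L φ) (fun k => p k ∧ q k) ⊔ hl (lam H L φ) (fun k => ¬p k ∧ q k) =
      hl (lam H L φ) q := le_antisymm (sup_le l1 l2) fun W hW =>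
    Submodule.mem_sup.2 ⟨_, pj_mem p hW, _, pj_mem (fun k => ¬p k) hW, by
      funext e z A
      by_cases c : p A.card <;> simp [pj, c]⟩
  have e2 : hl (lam H L φ) (fun k => p k ∧ q k) ⊓ hl (lam H L φ) (fun k => ¬p k ∧ q k) = ⊥ :=
    eq_bot_iff.2 fun W hW => funext fun e => funext fun z => funext fun A =>
      by_contra fun c => (hW.2.2.2 e z A c).2.2.1 (hW.1.2.2 e z A c).2.2.1
  rw [← Submodule.finrank_sup_add_finrank_inf_eq, e1, e2, finrank_bot, add_zero]

theorem cut [FiniteDimensional ℂ (hl (lam H L φ) q)] (m : ℕ) :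
    finrank ℂ (hl (lam H L φ) fun k => k < m ∧ q k) =
      ∑ k ∈ Finset.range m, if q k then finrank ℂ (hl (lam H L φ) (· = k)) else 0 := by
  induction m with
  | zero => rw [bot _ (by simp), finrank_bot, Finset.sum_range_zero]
  | succ m ih =>
    have := Submodule.finiteDimensional_of_le
      (mono (lam H L φ) (p := fun k => k < m + 1 ∧ q k) fun _ _ h => h.2)
    rw [split (· < m), Finset.sum_range_succ, ← ih,
      show (fun k => k < m ∧ k < m + 1 ∧ q k) = fun k => k < m ∧ q k from
        funext fun k => propext ⟨fun h => ⟨h.1, h.2.2⟩, fun h => ⟨h.1, by omega, h.2⟩⟩]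
    split_ifs with c
    · rw [show (fun k => ¬k < m ∧ k < m + 1 ∧ q k) = (· = m) from
        funext fun k => propext ⟨fun h => by omega, fun h => ⟨by omega, by omega, h ▸ c⟩⟩]
    · rw [bot (p := fun k => ¬k < m ∧ k < m + 1 ∧ q k) _
        fun k h => c ((show k = m by omega) ▸ h.2.2), finrank_bot]

theorem all [FiniteDimensional ℂ (hl (lam H L φ) q)] : finrank ℂ (hl (lam H L φ) q) =
    ∑ k ∈ Finset.range (n + 1), if q k then finrank ℂ (hl (lam H L φ) (· = k)) else 0 := by
  rw [← cut, le_antisymm (mono (lam H L φ) (p := fun k => k < n + 1 ∧ q k) fun _ _ h => h.2)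
    (mono _ fun k c h => ⟨by omega, h⟩)]

end DIM

theorem bDIM : St_DIM := by
  intro n M H L φ h0 h1
  refine ⟨fun q => ?_, ?_⟩
  · rcases Nat.even_or_odd q with h | h
    · exact Submodule.finiteDimensional_of_le (DIM.mono _ (q := Even) fun k _ c => c ▸ h)
    · exact Submodule.finiteDimensional_of_le (DIM.mono _ (q := Odd) fun k _ c => c ▸ h)
  · rw [DIM.all (q := Even), DIM.all (q := Odd), chi, Nat.cast_sum, Nat.cast_sum,
      ← Finset.sum_sub_distrib]
    refine Finset.sum_congr rfl fun k _ => ?_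
    rcases Nat.even_or_odd k with h | h
    · simp [h, Nat.not_odd_iff_even.2 h, h.neg_one_pow]
    · simp [h, Nat.not_even_iff_odd.2 h, h.neg_one_pow]

end Pool.Agent.Lib.IDX
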