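import Pool.Agent.Lib.IDX.Blue
import Pool.Agent.Lib.HS32.MAll

/-! The identity of Bochner without curvature. -/

open scoped Classical Topology ContDiff ComplexOrder Matrix
open Filter MeasureTheory

noncomputable section

namespace Pool.Agent.Lib.IDX

open Pool.Agent.Lib.HS32 Pool.Agent.Lib.KP Pool.Agent.Lib.HLK

namespace HA

variable {n : ℕ} {M : Mf n} {H : M.Fam (Mat n)} {L : M.Co} {φ : M.Fam ℝ}

theorem flat (h : Can H L φ) (x : M.X) : (M.hw φ + M.ric H) (M.ch x) (M.ch x x) = 0 := by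
  have e : (fun z => (φ (M.ch x) z : ℂ)) =ᶠ[𝓝 (M.ch x x)] ld (H (M.ch x)) := by
    filter_upwards [(M.ch x).open_target.mem_nhds (Mf.ch_tgt x)] with z hz
    rw [h.w _ (Mf.ch_mem x) z hz, ld]
  rw [Pi.add_apply, Pi.add_apply, Mf.hw, Mf.ric, hess_congr e, add_neg_cancel]

theorem cu_zero (h : Can H L φ) (b : Bun M (Fs n)) (W : M.Fam (Fs n → ℂ)) (x : M.X) :
    cu (M.hw φ + M.ric H) b W x = 0 := by
  simp only [cu, Mf.ev, flat h x, Matrix.zero_apply, zero_mul, Finset.sum_const_zero,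
    Complex.zero_re]

theorem gb_zero (b : Bun M (Fs n)) {W : M.Fam (Fs n → ℂ)} (h : Hol W) (x : M.X) :
    gb H b W x = 0 := by
  have e : ∀ k, dzbv k (W (M.ch x)) (M.ch x x) = 0 := fun k => funext fun i => by
    have d := (h _ (Mf.ch_mem x) _ (Mf.ch_tgt x) i).self_of_nhds
    exact ((mHOL n _ _).1 (d.restrictScalars ℝ)).1 d k
  simp only [gb, Mf.ev, e, Matrix.mulVec_zero, dotProduct_zero, mul_zero, Finset.sum_const_zero,
    Complex.zero_re]

end HA

theorem bHA (hSKW : HLK.St_SKW) (hBOC : HLK.St_BOC) : St_HA := by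
  intro n M _ H L φ W hH hC hW
  have e : (lam H L φ).nr H ((oD H φ).ap W) = ∫ x, gb H (lam H L φ) W x ∂M.mu H := by
    rw [((hSKW n M H L φ hH hC.wl).2.2 W hW).2.2, hBOC n M H L φ W hH hC.wl hW]
    simp only [HA.cu_zero hC, integral_zero, add_zero]
  refine ⟨e, fun h => ?_⟩
  rw [e]
  simp only [HA.gb_zero _ h, integral_zero]

end Pool.Agent.Lib.IDX
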