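import Pool.Agent.Lib.IDX.Blue

/-! Project idx, row HB: weak solutions are holomorphic. -/

open scoped Classical Topology ContDiff ComplexOrder Matrix ENNReal
open Set MeasureTheory Complex Metric Filter UniformSpace

set_option linter.unusedVariables false

noncomputable section

namespace Pool.Agent.Lib.IDX

open Pool.Agent.Lib.SV (E)
open Pool.Agent.Lib.HS32 Pool.Agent.Lib.KP Pool.Agent.Lib.HLK

namespace HB

/-- The squared norm of the image under an operator. -/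
theorem op_sq {n : ℕ} {M : Mf n} [M.Cpt] {σ : Type} [Fintype σ] [DecidableEq σ] {g : Geo M σ}
    {D : Op M σ} (h : ∀ W, g.b.Sec W → g.b.Sec (D.ap W)) (s : Pre g) :
    ‖Pre.op D h s‖ ^ 2 = g.b.nr g.H (D.ap s.val) := by
  rw [Pre.norm_sq]
  unfold Bun.nr Bun.pn
  rw [Pre.pp_congr (Pre.op_val h s) (Pre.op_val h s)]

/-- Two limits of the same sequence along a filter agree. -/
theorem lim_eq {V : Type} [SeminormedAddCommGroup V] (u : Completion V) (v : V) (s : ℕ → V)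
    (l : Filter ℕ) [l.NeBot] (h1 : Tendsto (fun j => ‖u - s j‖) l (𝓝 0))
    (h2 : Tendsto (fun j => ‖s j - v‖ ^ 2) l (𝓝 0)) : (v : Completion V) = u := by
  have h3 : Tendsto (fun j => ‖s j - v‖) l (𝓝 0) := by
    have := h2.sqrt
    simp only [Real.sqrt_sq (norm_nonneg _), Real.sqrt_zero] at this
    exact this
  have h4 := h1.add h3
  rw [add_zero] at h4
  have h5 : ‖u - v‖ ≤ 0 := ge_of_tendsto' h4 fun j => by
    have e1 : ‖s j - v‖ = ‖(s j : Completion V) - v‖ := by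
      rw [← Completion.coe_sub, Completion.norm_coe]
    rw [e1]
    exact norm_sub_le_norm_sub_add_norm_sub u (s j) v
  exact (sub_eq_zero.1 (norm_le_zero_iff.1 h5)).symm

end HB

theorem bHB (hLAM : HLK.St_LAM) (hVL : HLK.St_VL) (hHA : St_HA) : St_HB := by
  intro n M _ H L φ hH hb hD u hn hK hC h
  have hp : ∀ j : ℕ, (0 : ℝ) < 1 / ((j : ℝ) + 1) := fun j => Nat.one_div_pos_of_nat
  have h1 : ∀ j : ℕ, 1 / ((j : ℝ) + 1) ≤ 1 := fun j => by
    rw [div_le_one (by positivity)]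
    linarith [Nat.cast_nonneg (α := ℝ) j]
  choose s hs1 hs2 using fun j : ℕ => h _ (hp j)
  have hl : (lam H L φ).Hl := (hLAM n M H L φ hH hC.wl).2.1
  have hg : ∀ j, ∫ x, gb H (lam H L φ) (s j).val x ∂M.mu H =
      ‖Pre.op (g := geo L φ hH hb) (oD H φ) hD.sec (s j)‖ ^ 2 := fun j =>
    ((hHA n M H L φ _ hK hC (s j).sec).1.symm.trans (HB.op_sq (g := geo L φ hH hb) hD.sec (s j)).symm)
  have t0 : Tendsto (fun j : ℕ => 1 / ((j : ℝ) + 1)) (hyperfilter ℕ) (𝓝 0) :=
    tendsto_one_div_add_atTop_nhds_zero_nat.mono_left Nat.hyperfilter_le_atTop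
  have t1 : Tendsto (fun j => ‖u - s j‖) (hyperfilter ℕ) (𝓝 0) :=
    squeeze_zero (fun j => norm_nonneg _) (fun j => (hs1 j).le) t0
  have t2 : Tendsto (fun j => ‖Pre.op (g := geo L φ hH hb) (oD H φ) hD.sec (s j)‖)
      (hyperfilter ℕ) (𝓝 0) := squeeze_zero (fun j => norm_nonneg _) (fun j => (hs2 j).le) t0
  have t3 : Tendsto (fun j => ∫ x, gb H (lam H L φ) (s j).val x ∂M.mu H) (hyperfilter ℕ)
      (𝓝 0) := by
    have := t2.pow 2
    rw [zero_pow two_ne_zero] at this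
    exact this.congr fun j => (hg j).symm
  obtain ⟨V, hV, hol, t4⟩ := hVL n M (Fs n) H (lam H L φ) (hyperfilter ℕ) (fun j => (s j).val)
    ((‖u‖ + 1) ^ 2) hn hH hb hl (fun j => by
      have a1 : ‖s j‖ ≤ ‖u‖ + 1 := by
        have e1 : ‖s j‖ = ‖(s j : L2 (geo L φ hH hb))‖ := (Completion.norm_coe _).symm
        have e2 := norm_sub_norm_le (s j : L2 (geo L φ hH hb)) u
        rw [norm_sub_rev] at e2
        linarith [hs1 j, h1 j]
      have a2 : ‖Pre.op (g := geo L φ hH hb) (oD H φ) hD.sec (s j)‖ ≤ ‖u‖ + 1 := by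
        linarith [hs2 j, h1 j, norm_nonneg u]
      refine ⟨(s j).sec, ?_, ?_⟩
      · exact (Pre.norm_sq (s j)).symm.le.trans (pow_le_pow_left₀ (norm_nonneg _) a1 2)
      · exact (hg j).le.trans (pow_le_pow_left₀ (norm_nonneg _) a2 2)) t3
  refine ⟨Pre.mk (g := geo L φ hH hb) V hV, hol, HB.lim_eq u _ s (hyperfilter ℕ) t1 ?_⟩
  exact t4.congr fun j => (Pre.norm_sq (s j - Pre.mk (g := geo L φ hH hb) V hV)).symm

end Pool.Agent.Lib.IDX
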