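import Pool.Agent.Lib.IDX.Blue

/-! Project idx: the weak kernel at the canonical level. -/

open scoped Classical Topology ContDiff ComplexOrder Matrix ENNReal
open Set MeasureTheory Complex Metric Filter UniformSpace

set_option linter.unusedVariables false

noncomputable section

namespace Pool.Agent.Lib.IDX

open Pool.Agent.Lib.SV (E)
open Pool.Agent.Lib.HS32 Pool.Agent.Lib.KP Pool.Agent.Lib.HLK

namespace HC

theorem key {n : ℕ} {M : Mf n} [M.Cpt] (g : Geo M (Fs n)) (D e : Pre g →ₗ[ℂ] Pre g)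
    (hI : ∀ w : Pre g, ‖w‖ = 0 ↔ M.All fun e z => w.val e z = 0)
    (hA : ∀ w : Pre g, Hol w.val → ‖D w‖ = 0)
    (hB : ∀ u : L2 g, (∀ η : ℝ, 0 < η → ∃ s : Pre g, ‖u - s‖ < η ∧ ‖D s‖ < η) →
      ∃ v : Pre g, Hol v.val ∧ (v : L2 g) = u)
    (he : ∀ w, (e w).val = par w.val) (hL : Lev D e) (p : ℕ → Prop) (s : ℝ)
    (hp : ∀ k, p k ↔ (-1 : ℂ) ^ k = s) : Nonempty (hl g.b p ≃ₗ[ℂ] wk D e s) := by
  have mem : ∀ W : hl g.b p, ((Pre.mk W.1 W.2.1 : Pre g) : L2 g) ∈ wk D e s := by
    intro W w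
    have h1 : e (Pre.mk W.1 W.2.1) = (s : ℂ) • Pre.mk W.1 W.2.1 := by
      refine Pre.ext ?_
      rw [he]
      funext c z A
      show (-1) ^ A.card * W.1 c z A = (s : ℂ) * W.1 c z A
      by_cases h : W.1 c z A = 0
      · simp [h]
      · rw [(hp _).1 (W.2.2.2 c z A h).2.2]
    rw [Completion.inner_coe, Completion.inner_coe, Completion.inner_coe, ← hL.es, h1,
      inner_smul_left, Complex.conj_ofReal]
    refine ⟨?_, rfl⟩
    have h2 := norm_inner_le_norm (𝕜 := ℂ) (D (Pre.mk W.1 W.2.1)) w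
    rw [hA (Pre.mk W.1 W.2.1) W.2.2.1, zero_mul, hL.sk, norm_neg] at h2
    exact norm_le_zero_iff.1 h2
  let f : hl g.b p →ₗ[ℂ] wk D e s :=
    { toFun := fun W => ⟨_, mem W⟩
      map_add' := fun U W => Subtype.ext (Completion.coe_add (Pre.mk U.1 U.2.1) (Pre.mk W.1 W.2.1))
      map_smul' := fun c W => Subtype.ext (Completion.coe_smul c (Pre.mk W.1 W.2.1)) }
  refine ⟨LinearEquiv.ofBijective f ⟨(injective_iff_map_eq_zero f).2 fun W h => ?_, fun u => ?_⟩⟩
  · have h1 : ((Pre.mk W.1 W.2.1 : Pre g) : L2 g) = 0 := congrArg Subtype.val h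
    have h2 : ‖(Pre.mk W.1 W.2.1 : Pre g)‖ = 0 := by
      rw [← Completion.norm_coe, h1, norm_zero]
    refine Subtype.ext (funext fun c => funext fun z => funext fun A => ?_)
    by_contra h3
    have h4 := W.2.2.2 c z A h3
    exact h3 (congrFun ((hI _).1 h2 c h4.1 z h4.2.1) A)
  · obtain ⟨v, hv, huv⟩ := hB u.1 fun η hη => by
      obtain ⟨t, h1, h2⟩ := hL.ws u.1 0 (fun t => by rw [(u.2 t).1, inner_zero_left]) η hη
      rw [zero_add, Completion.norm_coe] at h2
      exact ⟨t, h1, h2⟩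
    have h1 : ‖e v - (s : ℂ) • v‖ = 0 := by
      have h2 := (u.2 (e v - (s : ℂ) • v)).2
      rw [← huv, Completion.inner_coe, Completion.inner_coe, ← hL.es] at h2
      have h3 : inner ℂ (e v - (s : ℂ) • v) (e v - (s : ℂ) • v) = 0 := by
        rw [inner_sub_left, h2, inner_smul_left, Complex.conj_ofReal, sub_self]
      have h4 := inner_self_eq_norm_sq (𝕜 := ℂ) (e v - (s : ℂ) • v)
      rw [h3, map_zero] at h4
      exact pow_eq_zero_iff two_ne_zero |>.1 h4.symm
    let W : M.Fam (Fs n → ℂ) := fun c z => if c ∈ M.C ∧ z ∈ c.target then v.val c z else 0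
    have ev : ∀ c ∈ M.C, ∀ z ∈ c.target, W c =ᶠ[𝓝 z] v.val c := fun c hc z hz => by
      filter_upwards [c.open_target.mem_nhds hz] with w hw using if_pos ⟨hc, hw⟩
    have eq : ∀ c ∈ M.C, ∀ z ∈ c.target, W c z = v.val c z := fun c hc z hz => if_pos ⟨hc, hz⟩
    have hS : g.b.Sec W := ⟨fun c hc z hz => (v.sec.sm c hc z hz).congr_of_eventuallyEq
      (ev c hc z hz), fun c hc c' hc' x hx hx' => by
        beta_reduce
        rw [eq c hc _ (c.map_source hx), eq c' hc' _ (c'.map_source hx')]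
        exact v.sec.cmp c hc c' hc' x hx hx'⟩
    have hW : W ∈ hl g.b p := by
      refine ⟨hS, fun c hc z hz i => ?_, fun c z A h => ?_⟩
      · filter_upwards [hv c hc z hz i, (ev c hc z hz).eventually_nhds] with w h1 h2
        exact h1.congr_of_eventuallyEq (h2.mono fun y hy => congrFun hy i)
      · have hc : c ∈ M.C ∧ z ∈ c.target := by
          by_contra hc
          exact h (congrFun (if_neg hc : W c z = 0) A)
        refine ⟨hc.1, hc.2, (hp _).2 ?_⟩
        have h2 := congrFun ((hI _).1 h1 c hc.1 z hc.2) A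
        rw [Pre.val_sub, he] at h2
        rw [eq c hc.1 z hc.2] at h
        have h3 : (-1) ^ A.card * v.val c z A - (s : ℂ) * v.val c z A = 0 := h2
        exact mul_right_cancel₀ h (sub_eq_zero.1 h3)
    refine ⟨⟨W, hW⟩, Subtype.ext ?_⟩
    show ((Pre.mk W hS : Pre g) : L2 g) = u.1
    rw [← huv, ← sub_eq_zero, ← Completion.coe_sub, ← norm_eq_zero, Completion.norm_coe]
    exact (hI _).2 fun c hc z hz => sub_eq_zero.2 (eq c hc z hz)

end HC

theorem bHC (hINJ : St_INJ) (hHA : St_HA) (hHB : St_HB) : St_HC := by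
  intro n M _ H L φ hH hb hD e hn hK hC he hL
  have hA : ∀ w : Pre (geo L φ hH hb), Hol w.val →
      ‖Pre.op (g := geo L φ hH hb) (oD H φ) hD.sec w‖ = 0 := fun w hw => by
    have h1 := Pre.norm_sq (Pre.op (g := geo L φ hH hb) (oD H φ) hD.sec w)
    have h2 := (hHA n M H L φ w.val hK hC w.sec).2 hw
    have h3 := Pre.pp_congr (g := geo L φ hH hb) (Pre.op_val (g := geo L φ hH hb) hD.sec w)
      (Pre.op_val (g := geo L φ hH hb) hD.sec w)
    have h4 : (geo L φ hH hb).b.nr (geo L φ hH hb).H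
        (Pre.op (g := geo L φ hH hb) (oD H φ) hD.sec w).val = 0 := by
      rw [← h2]
      simp only [Bun.nr, Bun.pn, h3]
      rfl
    exact pow_eq_zero_iff two_ne_zero |>.1 (h1.trans h4)
  refine ⟨HC.key (geo L φ hH hb) _ e (hINJ n M _ _) hA
      (fun u => hHB n M H L φ hH hb hD u hn hK hC) he hL Even 1 fun k => ?_,
    HC.key (geo L φ hH hb) _ e (hINJ n M _ _) hA
      (fun u => hHB n M H L φ hH hb hD u hn hK hC) he hL Odd (-1) fun k => ?_⟩
  · rw [Complex.ofReal_one]
    exact (neg_one_pow_eq_one_iff_even (by norm_num)).symm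
  · rw [Complex.ofReal_neg, Complex.ofReal_one]
    exact (neg_one_pow_eq_neg_one_iff_odd (by norm_num)).symm

end Pool.Agent.Lib.IDX
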