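import Pool.Agent.Lib.IDX.Blue

/-! Project idx: sections of norm zero. -/

open scoped Classical Topology ContDiff ComplexOrder Matrix ENNReal
open Set MeasureTheory Complex Filter

noncomputable section

namespace Pool.Agent.Lib.IDX

open Pool.Agent.Lib.HS32 Pool.Agent.Lib.HLK

theorem st_INJ : St_INJ := by
  intro n M _ σ _ _ g w
  obtain ⟨r, s⟩ := g.ok.pp_rep w.sec w.sec
  obtain ⟨-, -, op, -, it, -⟩ := mMU n M g.H g.met
  have c : Continuous (g.b.pn w.val) := s.re.continuous
  rw [← sq_eq_zero_iff, Pre.norm_sq, Bun.nr,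
    integral_eq_zero_iff_of_nonneg (fun x => Pre.pn_nonneg _ x) (it ℝ _ c)]
  constructor
  · intro h e he z hz
    have h0 := congrFun ((c.ae_eq_iff_eq (M.mu g.H) continuous_zero).1 h) (e.symm z)
    by_contra k
    have p := ((g.ok.pos e he z hz).dotProduct_mulVec_pos k).trans_eq (r e he z hz).symm
    exact (Complex.pos_iff.1 p).1.ne' h0
  · intro h
    refine Eventually.of_forall fun x => ?_
    have h0 : M.ev w.val x = 0 := Mf.AllOn.ch h x
    simp [Bun.pn, Bun.pp, h0]

end Pool.Agent.Lib.IDX
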