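import Pool.Agent.Lib.IDX.Blue

/-! Project idx, row `LEV`: one level. -/

open scoped Classical Topology ContDiff ComplexOrder Matrix
open Set MeasureTheory Complex Filter

noncomputable section

namespace Pool.Agent.Lib.IDX

open Pool.Agent.Lib.HS32 Pool.Agent.Lib.KP Pool.Agent.Lib.HLK

namespace LEV

theorem nz6 {n : ℕ} {M : Mf n} [M.Cpt] {σ : Type} [Fintype σ] [DecidableEq σ] {g : Geo M σ}
    (w : Pre g) (h : M.All fun e z => w.val e z = (0 : Pre g).val e z) : ‖w‖ = 0 := by
  have e : inner ℂ w w = inner ℂ (0 : Pre g) (0 : Pre g) := by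
    rw [Pre.inner_def, Pre.inner_def, Bun.ip, Bun.ip, Pre.pp_congr h h]
  rw [inner_zero_left] at e
  have k := inner_self_eq_norm_sq (𝕜 := ℂ) w
  rw [e, map_zero] at k
  exact (pow_eq_zero_iff two_ne_zero).1 k.symm

end LEV

theorem bLEV (hSKW : HLK.St_SKW) (hWS : HLK.St_WS) (hREL : HLK.St_REL) (hDNS : HLK.St_DNS)
    (hPAR : St_PAR) : St_LEV := by
  intro n M _ H L φ hH hb hD hK hW
  have P := hPAR n M H L φ
  let e : Pre (geo L φ hH hb) →ₗ[ℂ] Pre (geo L φ hH hb) :=
    { toFun w := Pre.mk (par w.val) ((P w.val).2.2 w.sec).1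
      map_add' u v := Pre.ext (by
        funext c z A
        exact mul_add _ _ _)
      map_smul' a u := Pre.ext (by
        funext c z A
        exact mul_left_comm _ _ _) }
  have sk := Pre.op_skew (g := geo L φ hH hb) hD
  refine ⟨e, fun _ => rfl, sk, (hDNS _ _ sk (hWS n M _ (geo L φ hH hb) _ hD)).2,
    hREL n M _ (geo L φ hH hb) _ hD (hSKW n M H L φ hK hW).2.1, fun a b => ?_,
    fun a => Pre.ext (P a.val).1, fun a => LEV.nz6 _ fun c hc z hz => ?_⟩
  · exact congrArg (fun f => ∫ x, f x ∂M.mu H) ((P a.val).2.1 b.val)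
  · have h1 := Pre.op_val (g := geo L φ hH hb) hD.sec (e a) c hc z hz
    have h2 := Pre.op_val (g := geo L φ hH hb) hD.sec a c hc z hz
    have h3 := ((P a.val).2.2 a.sec).2 c hc z hz
    beta_reduce at h1 h2 h3
    show (Pre.op (g := geo L φ hH hb) _ hD.sec (e a)).val c z +
      par (Pre.op (g := geo L φ hH hb) _ hD.sec a).val c z = 0
    rw [h1, show (e a).val = par a.val from rfl, h3]
    funext A
    simp only [par, h2, Pi.add_apply, Pi.neg_apply, Pi.zero_apply, neg_add_cancel]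

end Pool.Agent.Lib.IDX
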