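import Pool.Agent.Lib.IDX.Blue

/-! Multiplication by a section and its adjoint. -/

open scoped Classical Topology ContDiff ComplexOrder Matrix ENNReal
open Set MeasureTheory Complex Metric Filter UniformSpace

noncomputable section

namespace Pool.Agent.Lib.IDX

open Pool.Agent.Lib.SV (E)
open Pool.Agent.Lib.HS32 Pool.Agent.Lib.KP Pool.Agent.Lib.HLK

namespace MUL

variable {n : ℕ} {M : Mf n} {A : M.Co} {ψ : M.Fam ℝ} {s : M.Fam ℂ}

theorem cj_sm (hψ : M.WtC A ψ) (hs : M.SecC A s) :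
    M.All fun e z => ContDiffAt ℝ ∞ (cj ψ s e) z := fun e he z hz =>
  (cd_star (hs.sm e he z hz)).mul
    (cd_ofReal (Real.contDiff_exp.contDiffAt.comp z (hψ.sm e he z hz).neg))

theorem cj_cmp (hψ : M.WtC A ψ) (hs : M.SecC A s) :
    M.Ov fun e e' x => cj ψ s e' (e' x) = cj ψ s e (e x) * (A.c e e' x)⁻¹ :=
  fun e he e' he' x hx hx' => by
    have h0 := A.ne e he e' he' x hx hx'
    have h1 : 0 < normSq (A.c e e' x) := normSq_pos.2 h0
    have h2 : star (A.c e e' x) ≠ 0 := star_ne_zero.2 h0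
    have h3 : ((normSq (A.c e e' x) : ℝ) : ℂ) = star (A.c e e' x) * A.c e e' x := by
      rw [normSq_eq_conj_mul_self]; rfl
    simp only [cj]
    rw [hs.cmp e he e' he' x hx hx', hψ.cmp e he e' he' x hx hx', neg_add, Real.exp_add,
      Real.exp_neg (Real.log _), Real.exp_log h1, ofReal_mul, ofReal_inv, h3, star_mul']
    field_simp

theorem bound [M.Cpt] (hψ : M.WtC A ψ) (hs : M.SecC A s) :
    ∃ C : ℝ, 0 ≤ C ∧ ∀ x, ‖M.ev (cj ψ s) x * M.ev s x‖ ≤ C := by
  have i : M.Inv fun e z => cj ψ s e z * s e z := fun e he e' he' x hx hx' => by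
    have h0 := A.ne e he e' he' x hx hx'
    beta_reduce
    rw [cj_cmp hψ hs e he e' he' x hx hx', hs.cmp e he e' he' x hx hx']
    field_simp
  obtain ⟨C, h, hC⟩ :=
    (i.sm fun e he z hz => (cj_sm hψ hs e he z hz).mul (hs.sm e he z hz)).exists_bound
  exact ⟨C, h.le, hC⟩

end MUL

open MUL in
theorem bMUL (hLAM : HLK.St_LAM) : St_MUL := fun n M _ H L A L' φ ψ φ' s hH hN hs => by
  have h3 : ∀ W W', (lam H L' φ').pp (ml s W) W' = (lam H L φ).pp W (ml (cj ψ s) W') :=
    fun W W' => funext fun x => by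
      have w := Mf.AllOn.ch hN.w x
      simp only [Bun.pp, Mf.ev, lam, ml, cj, w, star_smul, Matrix.smul_mulVec, Matrix.mulVec_smul,
        smul_dotProduct, dotProduct_smul, smul_eq_mul, neg_add, Real.exp_add, ofReal_mul]
      ring
  refine ⟨fun W hW => ⟨fun e he z hz => (hs.sm e he z hz).smul (hW.sm e he z hz),
      fun e he e' he' x hx hx' => ?_⟩,
    fun W hW => ⟨fun e he z hz => (cj_sm hN.wa hs e he z hz).smul (hW.sm e he z hz),
      fun e he e' he' x hx hx' => ?_⟩, h3, ?_⟩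
  · have h0 := A.ne e he e' he' x hx hx'
    have k := hW.cmp e he e' he' x hx hx'
    simp only [lam, ml, Matrix.smul_mulVec, Matrix.mulVec_smul, smul_smul] at k ⊢
    rw [k, smul_smul, hs.cmp e he e' he' x hx hx', hN.c e he e' he' x hx hx', mul_inv]
    congr 1
    field_simp
  · have k := hW.cmp e he e' he' x hx hx'
    simp only [lam, ml, Matrix.smul_mulVec, Matrix.mulVec_smul, smul_smul] at k ⊢
    rw [k, smul_smul, cj_cmp hN.wa hs e he e' he' x hx hx', hN.c e he e' he' x hx hx', mul_inv]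
    congr 1
    ring
  · obtain ⟨C, h0, hC⟩ := bound hN.wa hs
    refine ⟨C, h0, fun W x => ?_⟩
    have p := Pre.pn_nonneg (g := geo L φ hH (hLAM n M H L φ hH hN.wl).1) W x
    have q := Pre.pp_star (g := geo L φ hH (hLAM n M H L φ hH hN.wl).1) W W x
    change 0 ≤ ((lam H L φ).pp W W x).re at p
    change star ((lam H L φ).pp W W x) = (lam H L φ).pp W W x at q
    have e : (lam H L φ).pp W (ml (cj ψ s) (ml s W)) x =
        M.ev (cj ψ s) x * M.ev s x * (lam H L φ).pp W W x := by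
      simp only [Bun.pp, Mf.ev, ml, Matrix.mulVec_smul, dotProduct_smul, smul_eq_mul]
      ring
    rw [Bun.pn, Bun.pn, h3, e, mul_re, conj_eq_iff_im.1 q, mul_zero, sub_zero]
    exact mul_le_mul_of_nonneg_right ((re_le_norm _).trans (hC x)) p

end Pool.Agent.Lib.IDX
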