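import Pool.Agent.Lib.IDX.Blue

/-! Project idx: the parity. -/

open scoped Classical Topology ContDiff ComplexOrder Matrix ENNReal
open Set MeasureTheory Complex Metric Filter

set_option linter.unusedVariables false

noncomputable section

namespace Pool.Agent.Lib.IDX

open Pool.Agent.Lib.SV (E)
open Pool.Agent.Lib.HS32 Pool.Agent.Lib.KP Pool.Agent.Lib.HLK

namespace PAR

variable {n : ℕ}

/-- The matrix of the parity. -/
def pm (n : ℕ) : Mx (Fs n) := Matrix.diagonal fun A => (-1) ^ A.card

theorem pm_vec (v : Fs n → ℂ) : pm n *ᵥ v = fun A => (-1) ^ A.card * v A :=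
  funext fun A => Matrix.mulVec_diagonal _ _ _

theorem pm_ct : (pm n)ᴴ = pm n := by
  rw [pm, Matrix.diagonal_conjTranspose]
  exact congrArg _ (funext fun A => by simp)

theorem pm_la (g : Mat n) : pm n * La g = La g * pm n := by
  ext A B
  rw [pm, Matrix.diagonal_mul, Matrix.mul_diagonal, La, Matrix.of_apply]
  by_cases h : B.card = A.card
  · rw [mul_comm]
    exact congrArg _ (by rw [h])
  · rw [dif_neg h, mul_zero, zero_mul]

theorem cr_pm (k : Fin n) : cr k * pm n = -(pm n * cr k) := by
  ext A B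
  rw [pm, Matrix.neg_apply, Matrix.diagonal_mul, Matrix.mul_diagonal, cr, Matrix.of_apply]
  by_cases h : k ∉ B ∧ A = insert k B
  · rw [h.2, Finset.card_insert_of_notMem h.1, pow_succ]
    ring
  · rw [if_neg h, mul_zero, zero_mul, neg_zero]

theorem an_pm (k : Fin n) : an k * pm n = -(pm n * an k) := by
  have := congrArg Matrix.conjTranspose (cr_pm k)
  rw [Matrix.conjTranspose_neg, Matrix.conjTranspose_mul, Matrix.conjTranspose_mul, pm_ct] at this
  rw [an, this, neg_neg]

theorem par_eq {M : Mf n} (W : M.Fam (Fs n → ℂ)) (e : M.Ch) (z : E n) :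
    par W e z = pm n *ᵥ W e z := (pm_vec _).symm

end PAR

open PAR in
theorem bPAR : St_PAR := by
  intro n M H L φ W
  refine ⟨?_, fun W' => ?_, fun hW => ⟨⟨fun e he z hz => contDiffAt_pi.2 fun A =>
    contDiffAt_const.mul (contDiffAt_pi.1 (hW.sm e he z hz) A), fun e he e' he' x hx hx' => ?_⟩,
    fun e he z hz => ?_⟩⟩
  · funext e z A
    rw [par, par, ← mul_assoc, ← mul_pow]
    simp
  · funext x
    simp only [Bun.pp, Mf.ev, par_eq, lam]
    rw [Matrix.star_mulVec, pm_ct, ← Matrix.dotProduct_mulVec, Matrix.mulVec_mulVec,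
      Matrix.mulVec_mulVec, Matrix.mul_smul, Matrix.smul_mul, pm_la]
  · have := hW.cmp e he e' he' x hx hx'
    beta_reduce at this
    simp only [par_eq, this, lam]
    rw [Matrix.mulVec_mulVec, Matrix.mulVec_mulVec, Matrix.mul_smul, Matrix.smul_mul, pm_la]
  · have du := fun i => cd_diff (contDiffAt_pi.1 (hW.sm e he z hz) i)
    have e1 : ∀ k, dzv k (par W e) z = pm n *ᵥ dzv k (W e) z := fun k => by
      rw [pm_vec]
      exact funext fun A => dz_const_mul _ (du A)
    have e2 : ∀ k, dzbv k (par W e) z = pm n *ᵥ dzbv k (W e) z := fun k => by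
      rw [pm_vec]
      exact funext fun A => dzb_const_mul _ (du A)
    show (oD H φ).ap (par W) e z = -par ((oD H φ).ap W) e z
    simp only [Op.ap, oD, e1, e2, par_eq, Matrix.mulVec_add, Matrix.mulVec_sum,
      Matrix.mulVec_mulVec, Matrix.neg_mul, Matrix.mulVec_neg, Matrix.sum_mul, Matrix.mul_sum,
      Matrix.smul_mul, Matrix.mul_smul, an_pm, cr_pm, smul_neg, Finset.sum_neg_distrib,
      Matrix.neg_mulVec, neg_add, neg_neg, Finset.sum_add_distrib]

end Pool.Agent.Lib.IDX
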