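import Pool.Agent.Lib.IDX.Blue
import Pool.Agent.Lib.IDX29.Pre

/-! Row PRE. -/

open Set UniformSpace

noncomputable section

namespace Pool.Agent.Lib.IDX

open Pool.Agent.Lib.IDX29

namespace PRE

variable {V : Type} [SeminormedAddCommGroup V] [InnerProductSpace ℂ V]

theorem eqv {a b : V} (h : ‖a - b‖ = 0) : Eqv a b := fun y => by
  have := norm_inner_le_norm (𝕜 := ℂ) y (a - b)
  rwa [h, mul_zero, norm_le_zero_iff, inner_sub_right, sub_eq_zero] at this

theorem dk {D e : V →ₗ[ℂ] V} (h : Lev D e) : Dk D e :=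
  ⟨h.sk, fun u f hu d d0 => by
    obtain ⟨s, s1, s2⟩ := h.ws u (-f) (fun s => by rw [hu, inner_neg_left]) d d0
    exact ⟨s, s1, by rwa [neg_add_eq_sub, norm_sub_rev] at s2⟩,
  (totallyBounded_preimage (Completion.isUniformInducing_coe V) h.rel).subset fun w hw =>
    mem_preimage.2 (mem_image_of_mem (fun s : V => (s : Completion V)) hw), h.es, fun x y => by rw [h.ee],
  fun x => eqv (by rw [sub_neg_eq_add, add_comm, h.od])⟩

theorem wk_eq {D e : V →ₗ[ℂ] V} (h : Dk D e) (r : ℝ) : wk D e r = Hm (Gr D) (ex e) r := by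
  ext u
  refine ⟨fun hu => ⟨fun w => ?_, ext_inner_right ℂ fun y => ?_⟩, fun hu w => ⟨?_, ?_⟩⟩
  · change inner ℂ 0 _ = _ * inner ℂ u _
    rw [(hu w).1, inner_zero_left, mul_zero]
  · refine Completion.induction_on y (isClosed_eq (by fun_prop) (by fun_prop)) fun w => ?_
    rw [h.iv.sy, h.exc, (hu w).2, inner_smul_left, Complex.conj_ofReal]
  · have : inner ℂ (0 : Completion V) _ = _ * inner ℂ u _ := hu.1 w
    rw [inner_zero_left] at this
    exact (mul_eq_zero.1 this.symm).resolve_left Complex.I_ne_zero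
  · rw [← h.exc, ← h.iv.sy, hu.2, inner_smul_left, Complex.conj_ofReal]

end PRE

theorem bPRE : St_PRE := fun V _ _ D e N s t h => by
  have dk := fun b => PRE.dk (h.lev b)
  refine ⟨fun b r => PRE.wk_eq (dk b) r ▸ fin (dk b).odd.cp _ _, fun h0 => ?_⟩
  refine infinite_of_forall_exists_gt fun b0 => ?_
  obtain ⟨a, ha, h1⟩ := pre dk h.ad (fun b j x y => by rw [h.ev]) (fun b i j x y => by rw [h.ss])
    (fun b i j x y => by rw [h.ts]) (fun b x => PRE.eqv (h.one b x)) h.cm (b := 0) (fun c => h0 (by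
      rw [PRE.wk_eq (dk 0), PRE.wk_eq (dk 0), Complex.ofReal_neg, Complex.ofReal_one]
      exact Nat.cast_injective (sub_eq_zero.1 c))) (b0 + 1)
  exact ⟨a, fun η η0 => (h1 η η0).imp fun w hw => ⟨hw.1, hw.2.le⟩, ha⟩

end Pool.Agent.Lib.IDX
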