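import Pool.Agent.Lib.IDX.Blue

/-! Project idx, row SIG: smooth sections without common zero. -/

open scoped Classical Topology ContDiff ComplexOrder Matrix ENNReal
open Set MeasureTheory Complex Metric Filter

noncomputable section

namespace Pool.Agent.Lib.IDX

open Pool.Agent.Lib.SV (E)
open Pool.Agent.Lib.HS32 Pool.Agent.Lib.KP Pool.Agent.Lib.HLK

namespace SIG

variable {n : ℕ} {M : Mf n}

/-- The section attached to one chart of the cover. -/
def sg (V : M.Cov) (A : M.Co) (ψ : M.Fam ℝ) (a : Fin V.r) : M.Fam ℂ := fun e z =>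
  ((V.χ a (e.symm z) * Real.exp (ψ (V.e a) (V.e a (e.symm z)) / 2) : ℝ) : ℂ) *
    A.c (V.e a) e (e.symm z)

theorem off [M.Cpt] (V : M.Cov) (a : Fin V.r) {x : M.X} (hx : x ∉ (V.e a).source) :
    ∀ᶠ y in 𝓝 x, V.χ a y = 0 := by
  have hs : closedBall (V.c a) (2 * V.ρ a) ⊆ (V.e a).target :=
    (closedBall_subset_closedBall (by linarith [V.pos a])).trans (V.sub a)
  have hK : IsCompact ((V.e a).symm '' closedBall (V.c a) (2 * V.ρ a)) :=
    (isCompact_closedBall _ _).image_of_continuousOn ((V.e a).continuousOn_symm.mono hs)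
  have hn : x ∉ (V.e a).symm '' closedBall (V.c a) (2 * V.ρ a) := by
    rintro ⟨w, hw, rfl⟩
    exact hx ((V.e a).map_target (hs hw))
  filter_upwards [hK.isClosed.isOpen_compl.mem_nhds hn] with y hy
  by_contra c
  exact hy ⟨V.e a y, ball_subset_closedBall (V.supp a y c).2, (V.e a).left_inv (V.supp a y c).1⟩

theorem sec [M.Cpt] (V : M.Cov) {A : M.Co} {ψ : M.Fam ℝ} (h : M.WtC A ψ) (a : Fin V.r) :
    M.SecC A (sg V A ψ a) := by
  refine ⟨fun e he z hz => ?_, fun e he e' he' x hx hx' => ?_⟩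
  · by_cases c : e.symm z ∈ (V.e a).source
    · have hz' : e (e.symm z) = z := e.right_inv hz
      have h1 := (mCHN n _ _ ((mTR n M).2.1 _ (V.mem a) e he _ c (e.map_target hz)).1).1
      have h2 := ((mHOL n _ _).2.2 (A.hol _ (V.mem a) e he _ c (e.map_target hz))).1
      rw [hz'] at h1 h2
      have h3 : ContDiffAt ℝ ∞ (fun w => ψ (V.e a) (V.e a (e.symm w))) z :=
        ContDiffAt.comp z (g := ψ (V.e a)) (h.sm _ (V.mem a) _ ((V.e a).map_source c)) h1
      exact (cd_ofReal ((V.sm a e he z hz).mul (h3.div_const 2).exp)).mul h2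
    · refine (contDiffAt_const (c := (0 : ℂ))).congr_of_eventuallyEq ?_
      filter_upwards [(e.continuousAt_symm hz).eventually (off V a c)] with w hw
      simp only [sg, hw, zero_mul, ofReal_zero]
  · simp only [sg, e.left_inv hx, e'.left_inv hx']
    by_cases c : V.χ a x = 0
    · simp only [c, zero_mul, ofReal_zero]
    · rw [A.mul _ (V.mem a) e he x (V.supp a x c).1 hx e' he' hx', mul_assoc]

theorem sq (V : M.Cov) {A : M.Co} {ψ : M.Fam ℝ} (h : M.WtC A ψ) (a : Fin V.r) :
    M.All fun e z => cj ψ (sg V A ψ a) e z * sg V A ψ a e z = ((V.χ a (e.symm z) ^ 2 : ℝ) : ℂ) := by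
  intro e he z hz
  by_cases c : V.χ a (e.symm z) = 0
  · simp [cj, sg, c]
  · have hs := (V.supp a _ c).1
    have h1 := h.cmp _ (V.mem a) e he _ hs (e.map_target hz)
    have h2 : 0 < normSq (A.c (V.e a) e (e.symm z)) :=
      normSq_pos.2 (A.ne _ (V.mem a) e he _ hs (e.map_target hz))
    beta_reduce at h1
    rw [e.right_inv hz] at h1
    have h3 : ∀ (u : ℂ) (r : ℝ), star u * (r : ℂ) * u = ((normSq u * r : ℝ) : ℂ) := fun u r => by
      rw [ofReal_mul, normSq_eq_conj_mul_self, RCLike.star_def]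
      ring
    rw [cj, h3, sg, map_mul, normSq_ofReal, h1, neg_add, Real.exp_add, Real.exp_neg (Real.log _),
      Real.exp_log h2]
    congr 1
    have h4 : Real.exp (ψ (V.e a) (V.e a (e.symm z)) / 2) *
        Real.exp (ψ (V.e a) (V.e a (e.symm z)) / 2) * Real.exp (-ψ (V.e a) (V.e a (e.symm z))) =
        1 := by
      rw [← Real.exp_add, ← Real.exp_add, add_halves, add_neg_cancel, Real.exp_zero]
    have h5 := mul_inv_cancel₀ h2.ne'
    linear_combination (V.χ a (e.symm z) ^ 2 * (normSq (A.c (V.e a) e (e.symm z)) *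
      (normSq (A.c (V.e a) e (e.symm z)))⁻¹)) * h4 + V.χ a (e.symm z) ^ 2 * h5

end SIG

theorem bSIG : St_SIG := by
  intro n M _ A ψ h
  obtain ⟨V, -⟩ := (mCOV n M).2.2.1
  refine ⟨V.r, SIG.sg V A ψ, SIG.sec V h, fun e he z hz => ?_⟩
  beta_reduce
  rw [Finset.sum_congr rfl fun a _ => SIG.sq V h a e he z hz, ← ofReal_sum, V.sum, ofReal_one]

end Pool.Agent.Lib.IDX
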