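import Pool.Agent.Lib.IDX.Blue

/-! Project idx, row STP: the multiplication between two consecutive levels. -/

open scoped Classical Topology ContDiff ComplexOrder Matrix
open Set MeasureTheory Complex Metric Filter

set_option linter.unusedVariables false

noncomputable section

namespace Pool.Agent.Lib.IDX

open Pool.Agent.Lib.SV (E)
open Pool.Agent.Lib.HS32 Pool.Agent.Lib.KP Pool.Agent.Lib.HLK

namespace STP

variable {n : ℕ} {M : Mf n}

/-- Multiplication by a scalar family, between two spaces of sections. -/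
def mul {g g' : Geo M (Fs n)} (s : M.Fam ℂ) (h : ∀ W, g.b.Sec W → g'.b.Sec (ml s W)) :
    Pre g →ₗ[ℂ] Pre g' where
  toFun u := Pre.mk (ml s u.val) (h _ u.sec)
  map_add' u v := Pre.ext (funext fun e => funext fun z => smul_add _ _ _)
  map_smul' a u := Pre.ext (funext fun e => funext fun z => smul_comm (s e z) a (u.val e z))

theorem itn [M.Cpt] {g : Geo M (Fs n)} (u : Pre g) : Integrable (g.b.pn u.val) (M.mu g.H) :=
  (Pre.itg u u).re

/-- A pointwise bound gives a bound of the norms. -/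
theorem nb [M.Cpt] {g g' : Geo M (Fs n)} (hH : g'.H = g.H) (u : Pre g) (v : Pre g') {c C : ℝ}
    (h0 : 0 ≤ C) (hc : c ≤ C) (h : ∀ x, g'.b.pn v.val x ≤ c * g.b.pn u.val x) :
    ‖v‖ ≤ √C * ‖u‖ := by
  have a : ‖v‖ ^ 2 ≤ C * ‖u‖ ^ 2 := by
    rw [Pre.norm_sq, Pre.norm_sq, Bun.nr, Bun.nr, ← integral_const_mul, hH]
    exact integral_mono (hH ▸ itn v) ((itn u).const_mul C) fun x =>
      (h x).trans (mul_le_mul_of_nonneg_right hc (Pre.pn_nonneg _ x))
  refine (sq_le_sq₀ (norm_nonneg _) (by positivity)).1 ?_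
  rwa [mul_pow, Real.sq_sqrt h0]

end STP

open STP in
theorem bSTP (hMUL : St_MUL) (hCOM : St_COM) : St_STP := by
  intro n M _ H L A L' φ ψ φ' s hH hb hb' hD hD' hK hN hs
  obtain ⟨a1, a2, a3, C1, c1, a4⟩ := hMUL n M H L A L' φ ψ φ' s hH hN hs
  obtain ⟨C2, c2, a5⟩ := hCOM n M H L A L' φ ψ φ' s hK hN hs
  refine ⟨mul (g := geo L φ hH hb) (g' := geo L' φ' hH hb') s a1,
    mul (g := geo L' φ' hH hb') (g' := geo L φ hH hb) (cj ψ s) a2, √(max C1 C2),
    fun _ => rfl, fun _ => rfl, fun x y => ?_, fun x => ⟨?_, ?_⟩⟩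
  · exact integral_congr_ae (Eventually.of_forall fun p => congrFun (a3 x.val y.val) p)
  · exact nb (g := geo L φ hH hb) (g' := geo L' φ' hH hb') (c := C1) rfl x _
      (le_max_of_le_left c1) (le_max_left _ _) fun p => a4 x.val p
  · refine nb (g := geo L φ hH hb) (g' := geo L' φ' hH hb') (c := C2) rfl x _
      (le_max_of_le_left c1) (le_max_right _ _) fun p => ?_
    have e : M.All fun e z => (Pre.op (g := geo L' φ' hH hb') (oD H φ') hD'.sec
        (mul (g := geo L φ hH hb) (g' := geo L' φ' hH hb') s a1 x) -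
        mul (g := geo L φ hH hb) (g' := geo L' φ' hH hb') s a1
          (Pre.op (g := geo L φ hH hb) (oD H φ) hD.sec x)).val e z =
        ((oD H φ').ap (ml s x.val) - ml s ((oD H φ).ap x.val)) e z := fun e he z hz => by
      have e1 := Pre.op_val (g := geo L' φ' hH hb') hD'.sec
        (mul (g := geo L φ hH hb) (g' := geo L' φ' hH hb') s a1 x) e he z hz
      have e2 := Pre.op_val (g := geo L φ hH hb) hD.sec x e he z hz
      exact congrArg₂ (· - ·) e1 (congrArg (s e z • ·) e2)
    exact (congrArg Complex.re (congrFun (Pre.pp_congr (g := geo L' φ' hH hb') e e) p)).trans_le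
      (a5 x.val x.sec p)

end Pool.Agent.Lib.IDX
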