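import Pool.Agent.Lib.HLK.All
import Pool.Agent.Lib.IDX.B_COM
import Pool.Agent.Lib.IDX.B_DIM
import Pool.Agent.Lib.IDX.B_HA
import Pool.Agent.Lib.IDX.B_HB
import Pool.Agent.Lib.IDX.B_HC
import Pool.Agent.Lib.IDX.B_INJ
import Pool.Agent.Lib.IDX.B_LEV
import Pool.Agent.Lib.IDX.B_MUL
import Pool.Agent.Lib.IDX.B_PAR
import Pool.Agent.Lib.IDX.B_PRE
import Pool.Agent.Lib.IDX.B_SIG
import Pool.Agent.Lib.IDX.B_STP
import Pool.Agent.Lib.IDX.B_TOP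

/-! Project idx: the index theorem without hypotheses. -/

namespace Pool.Agent.Lib.IDX

theorem aIDX : St_IDX :=
  have hMUL := bMUL HLK.aLAM
  have hHA := bHA HLK.aSKW HLK.aBOC
  bTOP HLK.aLAM HLK.aSKW bPRE bSIG (bLEV HLK.aSKW HLK.aWS HLK.aREL HLK.aDNS bPAR)
    (bSTP hMUL (bCOM HLK.aLAM HLK.aSKW HLK.aZER hMUL)) st_INJ
    (bHC st_INJ hHA (bHB HLK.aLAM HLK.aVL hHA)) bDIM

end Pool.Agent.Lib.IDX
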