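import Pool.Agent.Lib.IDX.Blue

/-! Project idx: the assembly. -/

open scoped Classical Topology ContDiff ComplexOrder Matrix ENNReal
open Set MeasureTheory Complex Metric Filter UniformSpace

set_option linter.unusedVariables false

noncomputable section

namespace Pool.Agent.Lib.IDX

open Pool.Agent.Lib.SV (E)
open Pool.Agent.Lib.HS32 Pool.Agent.Lib.KP Pool.Agent.Lib.HLK

namespace TOP

variable {n : ℕ} {M : Mf n} {σ : Type} [Fintype σ] [DecidableEq σ] {g : Geo M σ}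

theorem val_sum {ι : Type} (s : Finset ι) (f : ι → Pre g) :
    (∑ i ∈ s, f i).val = ∑ i ∈ s, (f i).val := by
  induction s using Finset.induction_on with
  | empty => simp
  | insert a s h ih => rw [Finset.sum_insert h, Finset.sum_insert h, Pre.val_add, ih]

theorem nr_op [M.Cpt] {D : Op M σ} (h : ∀ W, g.b.Sec W → g.b.Sec (D.ap W)) (w : Pre g) :
    g.b.nr g.H (D.ap w.val) = ‖Pre.op D h w‖ ^ 2 := by
  rw [Pre.norm_sq, Bun.nr, Bun.nr]
  simp only [Bun.pn, Pre.pp_congr (Pre.op_val h w) (Pre.op_val h w)]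

end TOP

theorem bTOP (hLAM : HLK.St_LAM) (hSKW : HLK.St_SKW) (hPRE : IDX.St_PRE) (hSIG : IDX.St_SIG)
    (hLEV : IDX.St_LEV)
    (hSTP : IDX.St_STP) (hINJ : IDX.St_INJ) (hHC : IDX.St_HC) (hDIM : IDX.St_DIM) : St_IDX := by
  intro n M _ H L φ A ψ hn hK hC hN
  have hH : M.Met H := hK.toMet
  have hb : ∀ b, (lam H (L b) (φ b)).Ok := fun b => (hLAM n M H _ _ hH (hN b).wl).1
  have hD : ∀ b, (oD H (φ b)).Skew (lam H (L b) (φ b)) H :=
    fun b => (hSKW n M H _ _ hK (hN b).wl).1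
  obtain ⟨N, s, hs, h1⟩ := hSIG n M A ψ (hN 0).wa
  choose e he hl using fun b => hLEV n M H (L b) (φ b) hH (hb b) (hD b) hK (hN b).wl
  choose m t C hm ht ha hc using fun b j => hSTP n M H (L b) A (L (b + 1)) (φ b) ψ (φ (b + 1)) (s j)
    hH (hb b) (hb (b + 1)) (hD b) (hD (b + 1)) hK (hN b) (hs j)
  have kz : Kz (V := fun b => Pre (geo (L b) (φ b) hH (hb b)))
      (fun b => Pre.op (g := geo (L b) (φ b) hH (hb b)) (oD H (φ b)) (hD b).sec) e m t := by
    refine ⟨hl, ha, fun b j => ⟨_, fun x => (hc b j x).1⟩, fun b j => ⟨_, fun x => (hc b j x).2⟩,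
      fun b j x => Pre.ext ?_, fun b i j x => Pre.ext ?_, fun b i j x => Pre.ext ?_,
      fun b x => (hINJ n M _ _ _).2 fun c hc z hz => ?_⟩
    · rw [he, hm, hm, he]
      funext c z B
      simp only [par, ml, Pi.smul_apply, smul_eq_mul]
      ring
    · rw [hm, hm, hm, hm]
      funext c z
      exact smul_comm _ _ _
    · rw [hm, ht, ht, hm]
      funext c z
      exact smul_comm _ _ _
    · rw [Pre.val_sub, TOP.val_sum]
      simp only [ht, hm, Pi.sub_apply, Finset.sum_apply, ml, smul_smul]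
      rw [← Finset.sum_smul, h1 c hc z hz, one_smul, sub_self]
  obtain ⟨f1, f2⟩ := hPRE _ _ e N m t kz
  obtain ⟨⟨E1⟩, ⟨E2⟩⟩ := hHC n M H (L 0) (φ 0) hH (hb 0) (hD 0) (e 0) hn hK hC (he 0) (hl 0)
  have g1 := f1 0 1
  have g2 := f1 0 (-1)
  obtain ⟨d1, d2⟩ := hDIM n M H (L 0) (φ 0) E1.symm.finiteDimensional E2.symm.finiteDimensional
  refine ⟨d1, fun h => (f2 fun k => h ?_).mono fun b hb' η hη => ?_⟩
  · rw [d2, E1.finrank_eq, E2.finrank_eq, k, sub_self]
  · obtain ⟨w, w1, w2⟩ := hb' (Real.sqrt η) (Real.sqrt_pos.2 hη)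
    refine ⟨w.val, w.sec, ?_, ?_⟩
    · have := Pre.norm_sq w
      rw [w1, one_pow] at this
      exact this.symm
    · refine (TOP.nr_op (g := geo (L b) (φ b) hH (hb b)) (hD b).sec w).trans_le ?_
      exact (pow_le_pow_left₀ (norm_nonneg _) w2 2).trans_eq (Real.sq_sqrt hη.le)

end Pool.Agent.Lib.IDX
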